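import Pool.Agent.H69.Ratios.Core

/-!
# The ratios conjecture for quadratic `L`-functions in the hyperelliptic ensemble fails in the
stated range of shifts

The definitions of `L`, `ratioMean`, `mainTerms` are in `Pool.Agent.H69.Ratios.Defs`.
-/

set_option autoImplicit false
set_option linter.unusedSectionVars false

open Polynomial Finset Filter Topology Pool.Agent.H69.Ratios
open scoped Classical

namespace Pool.Agent.Results.MP_dadd9c_nt.Disproof

variable {F : Type} [Field F] [Fintype F]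

/-- the growth inequality -/
lemma growth (q η κ C K : ℝ) (hq : 3 ≤ q) (hη : 0 < η) (hκ : κ < η) (hC : 0 < C) (hK : 0 < K) :
    ∃ N0 : ℝ, ∀ N k g b : ℝ, N0 ≤ N → 2 ≤ N → 1 ≤ k → g = k * N → 2 * g + 1 = q ^ N → 0 < b →
      b ≤ g ^ (-(2 + η)) →
      (C * q ^ (κ * g) + K) * q ^ (2 * g + 1) <
        ((1 - q ^ (-(2 * N * (1 / 8)))) / (1 - q ^ (-(2 * N * (2 * b))))) ^ k := by
  obtain ⟨l, hl⟩ : ∃ l, l = Real.log q := ⟨_, rfl⟩
  have hq0 : 0 < q := by linarith
  have hq1 : 1 < q := by linarith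
  have hlpos : 0 < l := by rw [hl]; exact Real.log_pos hq1
  obtain ⟨κ', hκ'⟩ : ∃ κ', κ' = max κ 0 := ⟨_, rfl⟩
  have hκ'0 : 0 ≤ κ' := by rw [hκ']; exact le_max_right _ _
  have hκ'1 : κ ≤ κ' := by rw [hκ']; exact le_max_left _ _
  have hκ'2 : κ' < η := by rw [hκ']; exact max_lt hκ hη
  obtain ⟨t, ht⟩ : ∃ t, t = (η - κ') * l / 2 := ⟨_, rfl⟩
  have htpos : 0 < t := by rw [ht]; have : 0 < η - κ' := by linarith
                           positivity
  obtain ⟨S, hS⟩ : ∃ S, S = l + Real.log (C + K) := ⟨_, rfl⟩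
  obtain ⟨c0, hc0⟩ : ∃ c0, c0 = (2 + η) * Real.log 3 + Real.log (10 * l) - 1 - Real.log t :=
    ⟨_, rfl⟩
  refine ⟨(|S| + c0 + 1) / t, ?_⟩
  intro N k g b hN hN2 hk hg hgN hb hbg
  have hNpos : 0 < N := by linarith
  have hkpos : 0 < k := by linarith
  have hgpos : 0 < g := by rw [hg]; positivity
  -- the denominator
  obtain ⟨y, hy⟩ : ∃ y, y = 1 - q ^ (-(2 * N * (2 * b))) := ⟨_, rfl⟩
  obtain ⟨z, hz⟩ : ∃ z, z = 1 - q ^ (-(2 * N * (1 / 8))) := ⟨_, rfl⟩
  have hy1 : y ≤ 4 * N * b * l := by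
    have h1 := Real.add_one_le_exp (-(2 * N * (2 * b)) * l)
    have h2 : q ^ (-(2 * N * (2 * b))) = Real.exp (-(2 * N * (2 * b)) * l) := by
      rw [Real.rpow_def_of_pos hq0, hl, mul_comm]
    rw [hy, h2]
    linarith
  have hy0 : 0 < y := by
    rw [hy]
    have : q ^ (-(2 * N * (2 * b))) < 1 :=
      Real.rpow_lt_one_of_one_lt_of_neg hq1 (by
        have : 0 < N * b := by positivity
        linarith)
    linarith
  have hz1 : 2 / 5 ≤ z := by
    have h1 : q ^ (-(2 * N * (1 / 8))) ≤ q ^ (-(1 / 2) : ℝ) :=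
      Real.rpow_le_rpow_of_exponent_le hq1.le (by linarith)
    have h2 : q ^ (-(1 / 2) : ℝ) ≤ 3 / 5 := by
      rw [Real.rpow_neg hq0.le, ← Real.sqrt_eq_rpow]
      have h3 : (5 / 3 : ℝ) ≤ √q := Real.le_sqrt_of_sq_le (by norm_num; linarith)
      have := inv_anti₀ (by norm_num) h3
      norm_num at this
      exact this
    rw [hz]
    linarith
  rw [← hy, ← hz]
  -- lower bound for the ratio
  have hratio : g ^ (2 + η) / (10 * l * N) ≤ z / y := by
    have hgp : 0 < g ^ (2 + η) := Real.rpow_pos_of_pos hgpos _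
    have h1 : b * g ^ (2 + η) ≤ 1 := by
      have := mul_le_mul_of_nonneg_right hbg hgp.le
      rwa [← Real.rpow_add hgpos, neg_add_cancel, Real.rpow_zero] at this
    rw [div_le_div_iff₀ (by positivity) hy0]
    calc g ^ (2 + η) * y ≤ g ^ (2 + η) * (4 * N * b * l) :=
          mul_le_mul_of_nonneg_left hy1 hgp.le
      _ = (b * g ^ (2 + η)) * (4 * N * l) := by ring
      _ ≤ 1 * (4 * N * l) := mul_le_mul_of_nonneg_right h1 (by positivity)
      _ = (2 / 5) * (10 * l * N) := by ring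
      _ ≤ z * (10 * l * N) := mul_le_mul_of_nonneg_right hz1 (by positivity)
  have hbase : 0 < g ^ (2 + η) / (10 * l * N) := by
    have hgp : 0 < g ^ (2 + η) := Real.rpow_pos_of_pos hgpos _
    positivity
  refine lt_of_lt_of_le ?_ (Real.rpow_le_rpow hbase.le hratio hkpos.le)
  -- upper bound for the left-hand side
  have hleft : (C * q ^ (κ * g) + K) * q ^ (2 * g + 1) ≤
      (C + K) * q ^ (κ' * g) * q ^ (2 * g + 1) := by
    apply mul_le_mul_of_nonneg_right _ (Real.rpow_nonneg hq0.le _)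
    have h1 : q ^ (κ * g) ≤ q ^ (κ' * g) :=
      Real.rpow_le_rpow_of_exponent_le hq1.le (mul_le_mul_of_nonneg_right hκ'1 hgpos.le)
    have h2 : 1 ≤ q ^ (κ' * g) := Real.one_le_rpow hq1.le (by positivity)
    nlinarith
  refine lt_of_le_of_lt hleft ?_
  -- take logarithms
  have hlhs : 0 < (C + K) * q ^ (κ' * g) * q ^ (2 * g + 1) := by
    have := Real.rpow_pos_of_pos hq0 (κ' * g)
    have := Real.rpow_pos_of_pos hq0 (2 * g + 1)
    positivity
  rw [← Real.log_lt_log_iff hlhs (Real.rpow_pos_of_pos hbase _)]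
  rw [Real.log_rpow hbase, Real.log_div (Real.rpow_pos_of_pos hgpos _).ne' (by positivity),
    Real.log_rpow hgpos, Real.log_mul (by positivity) (Real.rpow_pos_of_pos hq0 _).ne',
    Real.log_mul (by positivity) (Real.rpow_pos_of_pos hq0 _).ne', Real.log_rpow hq0,
    Real.log_rpow hq0, Real.log_mul (by positivity) hNpos.ne', ← hl]
  have hlogg : N * l - Real.log 3 ≤ Real.log g := by
    have h1 : q ^ N / 3 ≤ g := by
      have h2 : (3 : ℝ) ≤ q ^ N := by
        calc (3 : ℝ) ≤ q := hq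
          _ = q ^ (1 : ℝ) := (Real.rpow_one q).symm
          _ ≤ q ^ N := Real.rpow_le_rpow_of_exponent_le hq1.le (by linarith)
      linarith
    have h3 : 0 < q ^ N / 3 := by
      have := Real.rpow_pos_of_pos hq0 N
      positivity
    have h4 := Real.log_le_log h3 h1
    rw [Real.log_div (Real.rpow_pos_of_pos hq0 _).ne' (by norm_num), Real.log_rpow hq0,
      ← hl] at h4
    exact h4
  have hlogN : Real.log N ≤ t * N - 1 - Real.log t := by
    have h1 := Real.log_le_sub_one_of_pos (show 0 < t * N by positivity)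
    rw [Real.log_mul htpos.ne' hNpos.ne'] at h1
    linarith
  have hE : |S| + 1 ≤ t * N - c0 := by
    rw [div_le_iff₀ htpos] at hN
    linarith
  have hmain : |S| + 1 ≤ (η - κ') * N * l - (2 + η) * Real.log 3 - (Real.log (10 * l) +
      Real.log N) := by
    have h1 : (η - κ') * N * l = 2 * (t * N) := by rw [ht]; ring
    rw [h1]
    linarith
  have h2η : 0 < 2 + η := by linarith
  have hstep : (κ' * N * l + 2 * N * l) + (|S| + 1) ≤
      (2 + η) * Real.log g - (Real.log (10 * l) + Real.log N) := by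
    have h1 := mul_le_mul_of_nonneg_left hlogg h2η.le
    have h2 : κ' * N * l + 2 * N * l + ((η - κ') * N * l - (2 + η) * Real.log 3 -
        (Real.log (10 * l) + Real.log N)) = (2 + η) * (N * l - Real.log 3) -
        (Real.log (10 * l) + Real.log N) := by ring
    linarith
  have hS1 : S ≤ |S| := le_abs_self S
  have hS0 : 0 ≤ |S| := abs_nonneg S
  have hfin := mul_le_mul_of_nonneg_left hstep hkpos.le
  have h5 : k * (κ' * N * l + 2 * N * l + (|S| + 1)) = κ' * g * l + 2 * g * l +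
      k * (|S| + 1) := by
    rw [hg]; ring
  rw [h5] at hfin
  have h6 : |S| + 1 ≤ k * (|S| + 1) := le_mul_of_one_le_left (by positivity) hk
  have h7 : Real.log (C + K) + l = S := by rw [hS]; ring
  linarith

/-- Unbounded error as soon as the lower cutoff for `β` is at most `g^(-(2+η))`. -/
theorem cutoff (hq : Odd (Fintype.card F)) (η κ : ℝ) (hη : 0 < η) (hκ : κ < η) (b : ℕ → ℝ)
    (hb : ∀ᶠ g : ℕ in atTop, 0 < b g ∧ b g ≤ (g : ℝ) ^ (-(2 + η))) (C : ℝ) (g0 : ℕ) :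
    ∃ g ≥ g0, ∃ α β : ℝ, 0 < α ∧ α < 1 / 4 ∧ b g ≤ β ∧ β < 1 / 4 ∧
      (∀ D ∈ ensemble F (2 * g + 1), L D (1 / 2 + (β : ℂ)) ≠ 0) ∧
      C * (Fintype.card F : ℝ) ^ (κ * g) < ‖ratioMean F g α β - mainTerms F g α β‖ := by
  by_contra hcon
  push Not at hcon
  have hq3 : (3 : ℝ) ≤ Fintype.card F := by exact_mod_cast three_le_card hq
  have hKpos : 0 < mainBound F := by
    unfold mainBound
    have := Real.exp_pos 4
    positivity
  obtain ⟨N0, hN0⟩ := growth (Fintype.card F : ℝ) η κ (|C| + 1) (mainBound F) hq3 hη hκ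
    (by positivity) hKpos
  obtain ⟨G, hG⟩ := Filter.eventually_atTop.mp hb
  obtain ⟨j0, hj0⟩ := exists_nat_ge (max N0 (max (G : ℝ) (max (g0 : ℝ) 10)))
  obtain ⟨j, hj⟩ : ∃ j, j = j0 + 1 := ⟨_, rfl⟩
  have hj0' : (j0 : ℝ) ≤ j := by rw [hj]; push_cast; linarith
  have hjpos : 0 < j := by omega
  have hjN : (j : ℝ) ≤ (2 : ℝ) ^ j := by
    have : j < 2 ^ j := Nat.lt_two_pow_self
    exact_mod_cast this.le
  have hNN0 : N0 ≤ (2 : ℝ) ^ j := by
    have := le_max_left N0 (max (G : ℝ) (max (g0 : ℝ) 10))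
    linarith
  have hmax2 : max (G : ℝ) (max (g0 : ℝ) 10) ≤ j :=
    ((le_max_right _ _).trans hj0).trans hj0'
  have hGj : (G : ℝ) ≤ j := (le_max_left _ _).trans hmax2
  have hgj : (g0 : ℝ) ≤ j := ((le_max_left _ _).trans (le_max_right _ _)).trans hmax2
  have h10j : (10 : ℝ) ≤ j := ((le_max_right _ _).trans (le_max_right _ _)).trans hmax2
  obtain ⟨k, hk⟩ := two_pow_dvd (Fintype.card F) hq j
  have hQ1 : 1 ≤ Fintype.card F ^ 2 ^ j := Nat.one_le_pow _ _ Fintype.card_pos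
  have hk' : Fintype.card F ^ (2 ^ j) = k * 2 ^ (j + 1) + 1 := by
    rw [mul_comm] at hk; omega
  obtain ⟨g, hg⟩ : ∃ g, g = k * 2 ^ j := ⟨_, rfl⟩
  have hg' : Fintype.card F ^ (2 ^ j) = 2 * g + 1 := by rw [hk', hg, pow_succ]; ring
  have hkpos : 1 ≤ k := by
    rcases Nat.eq_zero_or_pos k with h | h
    · subst h
      have := one_lt_card_pow (F := F) (2 ^ j) (by positivity)
      omega
    · exact h
  have hjg : j ≤ g := by
    rw [hg]
    have h1 : j < 2 ^ j := Nat.lt_two_pow_self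
    nlinarith
  have hjgR : (j : ℝ) ≤ g := by exact_mod_cast hjg
  have hgG : G ≤ g := by
    have : (G : ℝ) ≤ g := hGj.trans hjgR
    exact_mod_cast this
  have hgg0 : g0 ≤ g := by
    have : (g0 : ℝ) ≤ g := hgj.trans hjgR
    exact_mod_cast this
  have hg10 : (10 : ℝ) ≤ g := h10j.trans hjgR
  obtain ⟨hbpos, hble⟩ := hG g hgG
  have hb8 : b g < 1 / 8 := by
    refine lt_of_le_of_lt hble ?_
    calc (g : ℝ) ^ (-(2 + η)) ≤ (g : ℝ) ^ (-1 : ℝ) :=
          Real.rpow_le_rpow_of_exponent_le (by linarith) (by linarith)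
      _ = (g : ℝ)⁻¹ := Real.rpow_neg_one _
      _ ≤ (10 : ℝ)⁻¹ := inv_anti₀ (by norm_num) hg10
      _ < 1 / 8 := by norm_num
  have hcore := core hq j k g hjpos hk' hg' (b g) (C * (Fintype.card F : ℝ) ^ (κ * g)) hbpos hb8
    (fun a β h1 h2 h3 h4 h5 => hcon g hgg0 a β h1 h2 h3 h4 h5)
  have hgrow := hN0 ((2 : ℝ) ^ j) k g (b g) hNN0 (by
      have : (10 : ℝ) ≤ (2 : ℝ) ^ j := h10j.trans hjN
      linarith) (by exact_mod_cast hkpos) (by rw [hg]; push_cast; ring) (by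
      have h1 : (Fintype.card F : ℝ) ^ ((2 : ℝ) ^ j) = (Fintype.card F : ℝ) ^ (2 ^ j : ℕ) := by
        have h2 : ((2 : ℝ) ^ j) = ((2 ^ j : ℕ) : ℝ) := by push_cast; rfl
        rw [h2, Real.rpow_natCast]
      rw [h1]
      exact_mod_cast hg'.symm) hbpos hble
  rw [Real.rpow_natCast] at hgrow
  have h1 : (Fintype.card F : ℝ) ^ (2 * (g : ℝ) + 1) = (Fintype.card F : ℝ) ^ (2 * g + 1) := by
    rw [← Real.rpow_natCast]; push_cast; rfl
  rw [h1] at hgrow
  have h2 : (C * (Fintype.card F : ℝ) ^ (κ * g) + mainBound F) *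
      (Fintype.card F : ℝ) ^ (2 * g + 1) ≤
      ((|C| + 1) * (Fintype.card F : ℝ) ^ (κ * g) + mainBound F) *
      (Fintype.card F : ℝ) ^ (2 * g + 1) := by
    apply mul_le_mul_of_nonneg_right _ (by positivity)
    have h3 : C ≤ |C| + 1 := (le_abs_self C).trans (by linarith)
    have h4 : 0 ≤ (Fintype.card F : ℝ) ^ (κ * g) := Real.rpow_nonneg (by positivity) _
    have := mul_le_mul_of_nonneg_right h3 h4
    linarith
  linarith

/-- **The ratios conjecture, in the range of shifts in which it is stated, is false.** -/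
theorem result (F : Type) [Field F] [Fintype F] (hq : Odd (Fintype.card F)) :
    -- the conjectured asymptotic formula fails for every odd `q` and every `ε`
    (∀ ε c c' : ℝ, 0 < ε → 0 < c → 0 < c' →
      ¬ ∃ (C : ℝ) (g₀ : ℕ), ∀ g ≥ g₀, ∀ α β : ℂ,
        |α.re| < 1 / 4 →
        c * (Fintype.card F : ℝ) ^ (-(2 * (g : ℝ) + 1)) ≤ β.re → β.re < 1 / 4 →
        |α.im| ≤ c' * (Fintype.card F : ℝ) ^ (2 * (g : ℝ) * (g + 1) * (1 - ε)) →
        |β.im| ≤ c' * (Fintype.card F : ℝ) ^ (2 * (g : ℝ) * (g + 1) * (1 - ε)) →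
        (Fintype.card F : ℂ) ^ (2 * α) ≠ 1 →
        (∀ D ∈ ensemble F (2 * g + 1), L D (1 / 2 + β) ≠ 0) →
        ‖ratioMean F g α β - mainTerms F g α β‖ ≤
          C * (Fintype.card F : ℝ) ^ ((ε - 1) * (g : ℝ) - 1 / 2)) ∧
    -- it even fails when the lower cutoff for `β` is raised to `g^(-(2+η))`, `η > 0`
    (∀ η κ : ℝ, 0 < η → κ < η → ∀ b : ℕ → ℝ,
      (∀ᶠ g : ℕ in atTop, 0 < b g ∧ b g ≤ (g : ℝ) ^ (-(2 + η))) → ∀ (C : ℝ) (g₀ : ℕ),
      ∃ g ≥ g₀, ∃ α β : ℝ, 0 < α ∧ α < 1 / 4 ∧ b g ≤ β ∧ β < 1 / 4 ∧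
        (∀ D ∈ ensemble F (2 * g + 1), L D (1 / 2 + (β : ℂ)) ≠ 0) ∧
        C * (Fintype.card F : ℝ) ^ (κ * g) < ‖ratioMean F g α β - mainTerms F g α β‖) ∧
    -- the series defining `L` terminates: `L` is a polynomial in `q^(-s)`
    (∀ (g : ℕ), ∀ D ∈ ensemble F (2 * g + 1), ∀ n ≥ 2 * g + 1, coef D n = 0) := by
  refine ⟨?_, fun η κ hη hκ b hb C g₀ => cutoff hq η κ hη hκ b hb C g₀, ?_⟩
  · rintro ε c c' hε hc hc' ⟨C, g₀, h⟩
    have hq1 : (1 : ℝ) < Fintype.card F := card_real_gt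
    have hq0 : (0 : ℝ) < Fintype.card F := card_real_pos
    have hev : ∀ᶠ g : ℕ in atTop,
        0 < c * (Fintype.card F : ℝ) ^ (-(2 * (g : ℝ) + 1)) ∧
          c * (Fintype.card F : ℝ) ^ (-(2 * (g : ℝ) + 1)) ≤ (g : ℝ) ^ (-(2 + (ε + 1))) := by
      obtain ⟨n, hn⟩ := exists_nat_ge (3 + ε)
      have h1 : Tendsto (fun g : ℕ => (g : ℝ) ^ n / (Fintype.card F : ℝ) ^ g) atTop (𝓝 0) :=
        tendsto_pow_const_div_const_pow_of_one_lt n hq1
      have h2 : ∀ᶠ g : ℕ in atTop, (g : ℝ) ^ n / (Fintype.card F : ℝ) ^ g < 1 / c :=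
        h1.eventually (gt_mem_nhds (by positivity))
      filter_upwards [h2, eventually_ge_atTop 1] with g hg hg1
      have hg1R : (1 : ℝ) ≤ g := by exact_mod_cast hg1
      have hg0 : (0 : ℝ) < g := by linarith
      refine ⟨by positivity, ?_⟩
      have h3 : (g : ℝ) ^ (3 + ε) ≤ (g : ℝ) ^ n := by
        rw [← Real.rpow_natCast]
        exact Real.rpow_le_rpow_of_exponent_le hg1R hn
      have h4 : (Fintype.card F : ℝ) ^ (-(2 * (g : ℝ) + 1)) ≤
          ((Fintype.card F : ℝ) ^ g)⁻¹ := by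
        rw [← Real.rpow_natCast, ← Real.rpow_neg hq0.le]
        exact Real.rpow_le_rpow_of_exponent_le hq1.le (by linarith)
      have h5 : (0 : ℝ) < (g : ℝ) ^ (3 + ε) := Real.rpow_pos_of_pos hg0 _
      have h6 : (0 : ℝ) < (Fintype.card F : ℝ) ^ g := by positivity
      rw [show -(2 + (ε + 1)) = -(3 + ε) by ring, Real.rpow_neg hg0.le]
      calc c * (Fintype.card F : ℝ) ^ (-(2 * (g : ℝ) + 1)) ≤
            c * ((Fintype.card F : ℝ) ^ g)⁻¹ := mul_le_mul_of_nonneg_left h4 hc.le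
        _ ≤ ((g : ℝ) ^ (3 + ε))⁻¹ := by
            rw [← div_eq_mul_inv, div_le_iff₀ h6, inv_mul_eq_div, le_div_iff₀ h5]
            rw [div_lt_div_iff₀ h6 hc, one_mul] at hg
            nlinarith
    obtain ⟨g, hgg, α, β, hα, hα', hβ, hβ', hne, hlt⟩ :=
      cutoff (F := F) hq (ε + 1) (ε - 1) (by linarith) (by linarith) _ hev |C| g₀
    have h1 := h g hgg α β (by
        rw [Complex.ofReal_re, abs_of_pos hα]; exact hα') (by
        rw [Complex.ofReal_re]; exact hβ) (by rw [Complex.ofReal_re]; exact hβ') (by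
        rw [Complex.ofReal_im, abs_zero]; positivity) (by
        rw [Complex.ofReal_im, abs_zero]; positivity) (by
        have e1 : (Fintype.card F : ℂ) ^ (2 * (α : ℂ)) =
            (((Fintype.card F : ℝ) ^ (2 * α) : ℝ) : ℂ) := by
          rw [Complex.ofReal_cpow hq0.le]; push_cast; rfl
        rw [e1]
        have h2 : (1 : ℝ) < (Fintype.card F : ℝ) ^ (2 * α) :=
          Real.one_lt_rpow hq1 (by linarith)
        have h3 : (Fintype.card F : ℝ) ^ (2 * α) ≠ 1 := h2.ne'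
        exact_mod_cast h3) hne
    have h2 : C * (Fintype.card F : ℝ) ^ ((ε - 1) * (g : ℝ) - 1 / 2) ≤
        |C| * (Fintype.card F : ℝ) ^ ((ε - 1) * (g : ℝ)) := by
      calc C * (Fintype.card F : ℝ) ^ ((ε - 1) * (g : ℝ) - 1 / 2) ≤
            |C| * (Fintype.card F : ℝ) ^ ((ε - 1) * (g : ℝ) - 1 / 2) :=
            mul_le_mul_of_nonneg_right (le_abs_self C) (Real.rpow_nonneg hq0.le _)
        _ ≤ |C| * (Fintype.card F : ℝ) ^ ((ε - 1) * (g : ℝ)) :=
            mul_le_mul_of_nonneg_left (Real.rpow_le_rpow_of_exponent_le hq1.le (by linarith))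
              (abs_nonneg C)
    linarith
  · intro g D hD n hn
    rw [mem_ensemble] at hD
    exact coef_eq_zero hq D hD.1 (by rw [hD.2.1]; exact ⟨g, rfl⟩) n (by rw [hD.2.1]; exact hn)

end Pool.Agent.Results.MP_dadd9c_nt.Disproof
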