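import Pool.Agent.H2.Ratios.Main

/-!
# The ratios conjecture for quadratic `L`-functions in the hyperelliptic ensemble fails on fixed
lines, for every choice of two main terms

The definitions of `L`, `ratioMean`, `mainTerms` are in `Pool.Agent.H69.Ratios.Defs`.
-/

set_option autoImplicit false
set_option linter.unusedSectionVars false

open Polynomial Finset Filter Topology Pool.Agent.H69.Ratios Pool.Agent.H2.Ratios
open scoped Classical

namespace Pool.Agent.Results.MP_dadd9c_nt.IntendedRange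

variable {F : Type} [Field F] [Fintype F]

lemma L_eq (hq : Odd (Fintype.card F)) (D : F[X]) (hD : D.Monic) (hodd : Odd D.natDegree)
    (α : ℂ) : L D (1 / 2 + α) = (Np D).eval ((Fintype.card F : ℂ) ^ (-α)) := by
  have hq0 : (0 : ℝ) < Fintype.card F := by exact_mod_cast Fintype.card_pos
  have hqc : (Fintype.card F : ℂ) ≠ 0 := by exact_mod_cast Fintype.card_ne_zero
  have hs := sqrt_pos (F := F)
  have hsq : ((√(Fintype.card F : ℝ) : ℝ) : ℂ) = (Fintype.card F : ℂ) ^ ((1 : ℂ) / 2) := by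
    rw [Real.sqrt_eq_rpow, Complex.ofReal_cpow hq0.le]
    push_cast
    rfl
  unfold L
  rw [eval_Np, tsum_eq_sum (s := range D.natDegree)]
  · refine sum_congr rfl fun n _ => ?_
    have h1 : (Fintype.card F : ℂ) ^ (-(n : ℂ) * (1 / 2 + α)) =
        (((√(Fintype.card F : ℝ) : ℝ) : ℂ) ^ n)⁻¹ * ((Fintype.card F : ℂ) ^ (-α)) ^ n := by
      rw [hsq, ← Complex.cpow_nat_mul, ← Complex.cpow_nat_mul, ← Complex.cpow_neg,
        ← Complex.cpow_add _ _ hqc]
      congr 1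
      ring
    rw [h1, lc]
    ring
  · intro n hn
    rw [coef_eq_zero hq D hD hodd n (by simpa using hn)]
    simp

lemma ratioMean_eq (hq : Odd (Fintype.card F)) (g : ℕ) (α β : ℂ) :
    ratioMean F g α β =
      (PP F g ((Fintype.card F : ℂ) ^ (-β))).eval ((Fintype.card F : ℂ) ^ (-α)) := by
  rw [ratioMean, eval_PP, div_eq_inv_mul]
  congr 1
  refine Finset.sum_congr rfl fun D hD => ?_
  rw [L_eq hq D (ens_odd hD).1 (ens_odd hD).2, L_eq hq D (ens_odd hD).1 (ens_odd hD).2]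

lemma log_pos : 0 < Real.log (Fintype.card F : ℝ) :=
  Real.log_pos (by exact_mod_cast Fintype.one_lt_card)

/-- every point of the circle of radius `q ^ (-t)` is `q ^ (-s)` with `Re s = t` and
`|Im s| ≤ π / log q`. -/
lemma exists_shift (t : ℝ) (z : ℂ) (hz : ‖z‖ = (Fintype.card F : ℝ) ^ (-t)) :
    ∃ s : ℂ, (Fintype.card F : ℂ) ^ (-s) = z ∧ s.re = t ∧
      |s.im| ≤ Real.pi / Real.log (Fintype.card F) := by
  have hl := log_pos (F := F)
  have hq0 : (0 : ℝ) < Fintype.card F := by exact_mod_cast Fintype.card_pos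
  have hqc : (Fintype.card F : ℂ) ≠ 0 := by exact_mod_cast Fintype.card_ne_zero
  have hz0 : z ≠ 0 := by
    rintro rfl
    rw [norm_zero] at hz
    exact (Real.rpow_pos_of_pos hq0 (-t)).ne hz
  have hlc : Complex.log (Fintype.card F : ℂ) = ((Real.log (Fintype.card F) : ℝ) : ℂ) := by
    rw [Complex.ofReal_log hq0.le]
    push_cast
    rfl
  have hlne : ((Real.log (Fintype.card F) : ℝ) : ℂ) ≠ 0 := by exact_mod_cast hl.ne'
  refine ⟨-(Complex.log z) / ((Real.log (Fintype.card F) : ℝ) : ℂ), ?_, ?_, ?_⟩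
  · rw [Complex.cpow_def_of_ne_zero hqc, hlc]
    have : ((Real.log (Fintype.card F) : ℝ) : ℂ) *
        -(-(Complex.log z) / ((Real.log (Fintype.card F) : ℝ) : ℂ)) = Complex.log z := by
      field_simp
    rw [this, Complex.exp_log hz0]
  · rw [Complex.div_ofReal_re, Complex.neg_re, Complex.log_re, hz, Real.log_rpow hq0]
    field_simp
  · rw [Complex.div_ofReal_im, Complex.neg_im, Complex.log_im, abs_div, abs_neg,
      abs_of_pos hl]
    exact div_le_div_of_nonneg_right (Complex.abs_arg_le_pi z) hl.le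

/-- No asymptotic formula with two main terms. -/
theorem no_formula (hq : Odd (Fintype.card F)) (a b ε : ℝ) (ha : 0 < a) (hb : 0 < b)
    (hab : ε + 2 * b < a) :
    ¬ ∃ (M₁ M₂ : ℂ → ℂ → ℂ) (C : ℝ) (g₀ : ℕ), ∀ g : ℕ, g₀ ≤ g → ∀ α β : ℂ,
      α.re = -a → β.re = b →
      |α.im| ≤ Real.pi / Real.log (Fintype.card F) →
      |β.im| ≤ Real.pi / Real.log (Fintype.card F) →
      ‖ratioMean F g α β -
        (M₁ α β + (Fintype.card F : ℂ) ^ (-2 * (g : ℂ) * α) * M₂ α β)‖ ≤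
          C * (Fintype.card F : ℝ) ^ ((ε - 1) * g) := by
  rintro ⟨M₁, M₂, C, g₀, hM⟩
  obtain ⟨q, hqe⟩ : ∃ q, q = (Fintype.card F : ℝ) := ⟨_, rfl⟩
  have hq3 : 3 ≤ q := by rw [hqe]; exact card_ge_three hq
  have hq0 : 0 < q := by linarith
  have hq1 : 1 < q := by linarith
  have hqc : (Fintype.card F : ℂ) ≠ 0 := by exact_mod_cast Fintype.card_ne_zero
  obtain ⟨r, hr⟩ : ∃ r, r = q ^ a := ⟨_, rfl⟩
  obtain ⟨ρ, hρ⟩ : ∃ ρ, ρ = q ^ (-b) := ⟨_, rfl⟩
  obtain ⟨y, hy⟩ : ∃ y, y = q ^ (ε - 1) := ⟨_, rfl⟩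
  have hr1 : 1 < r := by rw [hr]; exact Real.one_lt_rpow hq1 ha
  have hρ0 : 0 < ρ := by rw [hρ]; exact Real.rpow_pos_of_pos hq0 _
  have hρ1 : ρ < 1 := by rw [hρ]; exact Real.rpow_lt_one_of_one_lt_of_neg hq1 (by linarith)
  have hy0 : 0 < y := by rw [hy]; exact Real.rpow_pos_of_pos hq0 _
  have hr0 : 0 < r := by linarith
  have hyg : ∀ g : ℕ, q ^ ((ε - 1) * g) = y ^ g := by
    intro g
    rw [hy, ← Real.rpow_natCast (q ^ (ε - 1)), ← Real.rpow_mul hq0.le]
  -- the bound for the second difference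
  have hS : ∀ g : ℕ, g₀ ≤ g → ∀ v u : ℂ, ‖v‖ = r → ‖u‖ = ρ →
      ‖(EE F g u).eval v‖ ≤ C * (y ^ 2 + (1 + r ^ 2) * y + r ^ 2) * y ^ g := by
    intro g hg v u hv hu
    obtain ⟨α, hα1, hα2, hα3⟩ := exists_shift (F := F) (-a) v (by
      rw [hv, hr, hqe, neg_neg])
    obtain ⟨β, hβ1, hβ2, hβ3⟩ := exists_shift (F := F) b u (by rw [hu, hρ, hqe])
    have hR : ∀ g' : ℕ, g₀ ≤ g' → ‖(PP F g' u).eval v - (M₁ α β + v ^ (2 * g') * M₂ α β)‖ ≤
        C * y ^ g' := by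
      intro g' hg'
      have h1 := hM g' hg' α β hα2 hβ2 hα3 hβ3
      rw [ratioMean_eq hq, hα1, hβ1, ← hqe, hyg] at h1
      have h2 : (Fintype.card F : ℂ) ^ (-2 * (g' : ℂ) * α) = v ^ (2 * g') := by
        rw [← hα1, ← Complex.cpow_nat_mul]
        congr 1
        push_cast
        ring
      rw [h2] at h1
      exact h1
    have e2 := hR (g + 2) (by omega)
    have e1 := hR (g + 1) (by omega)
    have e0 := hR g hg
    have hsplit : (EE F g u).eval v =
        ((PP F (g + 2) u).eval v - (M₁ α β + v ^ (2 * (g + 2)) * M₂ α β)) -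
        (1 + v ^ 2) * ((PP F (g + 1) u).eval v - (M₁ α β + v ^ (2 * (g + 1)) * M₂ α β)) +
        v ^ 2 * ((PP F g u).eval v - (M₁ α β + v ^ (2 * g) * M₂ α β)) := by
      rw [eval_EE]
      ring
    rw [hsplit]
    refine (norm_add_le _ _).trans ?_
    have n1 : ‖1 + v ^ 2‖ ≤ 1 + r ^ 2 := by
      refine (norm_add_le _ _).trans ?_
      rw [norm_one, norm_pow, hv]
    have n2 : ‖v ^ 2‖ = r ^ 2 := by rw [norm_pow, hv]
    have b2 : ‖(1 + v ^ 2) * ((PP F (g + 1) u).eval v -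
        (M₁ α β + v ^ (2 * (g + 1)) * M₂ α β))‖ ≤ (1 + r ^ 2) * (C * y ^ (g + 1)) := by
      rw [norm_mul]
      exact mul_le_mul n1 e1 (norm_nonneg _) (by positivity)
    have b3 : ‖v ^ 2 * ((PP F g u).eval v - (M₁ α β + v ^ (2 * g) * M₂ α β))‖ ≤
        r ^ 2 * (C * y ^ g) := by
      rw [norm_mul, n2]
      exact mul_le_mul_of_nonneg_left e0 (by positivity)
    have b1 := norm_sub_le ((PP F (g + 2) u).eval v -
      (M₁ α β + v ^ (2 * (g + 2)) * M₂ α β)) ((1 + v ^ 2) * ((PP F (g + 1) u).eval v -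
        (M₁ α β + v ^ (2 * (g + 1)) * M₂ α β)))
    calc _ ≤ (C * y ^ (g + 2) + (1 + r ^ 2) * (C * y ^ (g + 1))) + r ^ 2 * (C * y ^ g) := by
          linarith
      _ = C * (y ^ 2 + (1 + r ^ 2) * y + r ^ 2) * y ^ g := by ring
  -- the limit
  obtain ⟨C', hC'⟩ : ∃ C', C' = C * (y ^ 2 + (1 + r ^ 2) * y + r ^ 2) := ⟨_, rfl⟩
  rw [← hC'] at hS
  obtain ⟨x, hx⟩ : ∃ x, x = q * y * r⁻¹ * (ρ ^ 2)⁻¹ := ⟨_, rfl⟩
  have hx0 : 0 < x := by rw [hx]; positivity
  have hx1 : x < 1 := by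
    have h1 : x = q ^ (ε + 2 * b - a) := by
      have h2 : (ρ ^ 2)⁻¹ = q ^ (2 * b) := by
        rw [hρ, ← Real.rpow_natCast, ← Real.rpow_mul hq0.le, ← Real.rpow_neg hq0.le]
        congr 1
        push_cast
        ring
      have h3 : r⁻¹ = q ^ (-a) := by rw [hr, Real.rpow_neg hq0.le]
      have h4 : q * y = q ^ ε := by
        rw [hy, Real.rpow_sub hq0, Real.rpow_one]
        field_simp
      rw [hx, h2, h3, h4, ← Real.rpow_add hq0, ← Real.rpow_add hq0]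
      congr 1
      ring
    rw [h1]
    exact Real.rpow_lt_one_of_one_lt_of_neg hq1 (by linarith)
  have hineq : ∀ g : ℕ, g₀ ≤ g → 18 ≤ g →
      1 ≤ (2 * q * C' * (r ^ 2)⁻¹ * (ρ ^ 2)⁻¹) * ((2 * (g : ℝ) + 3) ^ 2 * x ^ g) := by
    intro g hg hg18
    have h1 := key hq g hg18 r ρ (C' * y ^ g) hr1 hρ0 hρ1 (hS g hg)
    rw [← hqe] at h1
    have hqg : 0 < q ^ (g + 1) := by positivity
    have h2 := mul_le_mul_of_nonneg_left h1 (by positivity : 0 ≤ 2 * q ^ (g + 1))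
    have h3 : 2 * q ^ (g + 1) * ((q ^ (g + 1))⁻¹ / 2) = 1 := by field_simp
    rw [h3] at h2
    refine h2.trans (le_of_eq ?_)
    have h4 : x ^ g = q ^ g * y ^ g * (r ^ g)⁻¹ * (ρ ^ (2 * g))⁻¹ := by
      rw [hx, mul_pow, mul_pow, mul_pow, inv_pow, inv_pow, ← pow_mul]
    rw [h4]
    have h5 : (r ^ (g + 2))⁻¹ = (r ^ g)⁻¹ * (r ^ 2)⁻¹ := by rw [pow_add, mul_inv]
    have h6 : (ρ ^ (2 * (g + 1)))⁻¹ = (ρ ^ (2 * g))⁻¹ * (ρ ^ 2)⁻¹ := by
      rw [mul_add, pow_add, mul_inv, mul_one]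
    rw [h5, h6, pow_succ]
    ring
  have hlim : Tendsto (fun g : ℕ => (2 * q * C' * (r ^ 2)⁻¹ * (ρ ^ 2)⁻¹) *
      ((2 * (g : ℝ) + 3) ^ 2 * x ^ g)) atTop (𝓝 0) := by
    have habs : |x| < 1 := by rw [abs_of_pos hx0]; exact hx1
    have t2 := tendsto_pow_const_mul_const_pow_of_abs_lt_one 2 habs
    have t1 := tendsto_pow_const_mul_const_pow_of_abs_lt_one 1 habs
    have t0 := tendsto_pow_const_mul_const_pow_of_abs_lt_one 0 habs
    have t := (((t2.const_mul 4).add (t1.const_mul 12)).add (t0.const_mul 9)).const_mul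
      (2 * q * C' * (r ^ 2)⁻¹ * (ρ ^ 2)⁻¹)
    simp only [mul_zero, add_zero] at t
    refine t.congr fun g => ?_
    ring
  have hev := hlim.eventually (gt_mem_nhds (zero_lt_one (α := ℝ)))
  obtain ⟨g, hg⟩ := (hev.and ((eventually_ge_atTop g₀).and (eventually_ge_atTop 18))).exists
  exact absurd (hineq g hg.2.1 hg.2.2) (not_le.mpr hg.1)

/-- **The ratios conjecture fails in the intended range of shifts.** -/
theorem result (F : Type) [Field F] [Fintype F] (hq : Odd (Fintype.card F)) :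
    -- the Riemann hypothesis: the denominators never vanish
    (∀ (g : ℕ) (D : F[X]), D ∈ ensemble F (2 * g + 1) → ∀ β : ℂ, 0 < β.re →
      L D (1 / 2 + β) ≠ 0) ∧
    -- no choice of two main terms works, even on two fixed vertical segments
    (∀ a b ε : ℝ, 0 < a → 0 < b → ε + 2 * b < a →
      ¬ ∃ (M₁ M₂ : ℂ → ℂ → ℂ) (C : ℝ) (g₀ : ℕ), ∀ g : ℕ, g₀ ≤ g → ∀ α β : ℂ,
        α.re = -a → β.re = b →
        |α.im| ≤ Real.pi / Real.log (Fintype.card F) →
        |β.im| ≤ Real.pi / Real.log (Fintype.card F) →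
        ‖ratioMean F g α β -
          (M₁ α β + (Fintype.card F : ℂ) ^ (-2 * (g : ℂ) * α) * M₂ α β)‖ ≤
            C * (Fintype.card F : ℝ) ^ ((ε - 1) * g)) ∧
    -- the conjectured formula fails, for every lower cutoff tending to `0` and every `ε < 1/4`
    (∀ ε : ℝ, ε < 1 / 4 → ∀ cut : ℕ → ℝ, Tendsto cut atTop (𝓝 0) →
      ¬ ∃ (C : ℝ) (g₀ : ℕ), ∀ g : ℕ, g₀ ≤ g → ∀ α β : ℂ,
        |α.re| < 1 / 4 → α.re ≠ 0 → cut g ≤ β.re → 0 < β.re → β.re < 1 / 4 →
        |α.im| ≤ Real.pi / Real.log (Fintype.card F) →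
        |β.im| ≤ Real.pi / Real.log (Fintype.card F) →
        ‖ratioMean F g α β - mainTerms F g α β‖ ≤
          C * (Fintype.card F : ℝ) ^ ((ε - 1) * g - 1 / 2)) := by
  refine ⟨?_, ?_, ?_⟩
  · intro g D hD β hβ
    refine Pool.Agent.H60.RH.L_ne_zero hq D (ens_odd hD).1 (ens_odd hD).2 _ ?_
    rw [Complex.add_re]
    norm_num
    exact hβ
  · intro a b ε ha hb hab
    exact no_formula hq a b ε ha hb hab
  · rintro ε hε cut hcut ⟨C, g₀, h⟩
    obtain ⟨e, he⟩ : ∃ e, e = max ε 0 := ⟨_, rfl⟩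
    have he0 : 0 ≤ e := by rw [he]; exact le_max_right _ _
    have heε : ε ≤ e := by rw [he]; exact le_max_left _ _
    have he1 : e < 1 / 4 := by rw [he]; exact max_lt hε (by norm_num)
    obtain ⟨a, ha⟩ : ∃ a, a = (e + 1 / 4) / 2 := ⟨_, rfl⟩
    obtain ⟨b, hb⟩ : ∃ b, b = (a - e) / 4 := ⟨_, rfl⟩
    have ha0 : 0 < a := by rw [ha]; linarith
    have ha1 : a < 1 / 4 := by rw [ha]; linarith
    have hb0 : 0 < b := by rw [hb, ha]; linarith
    have hb1 : b < 1 / 4 := by rw [hb, ha]; linarith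
    have hq0 : (0 : ℝ) < Fintype.card F := by exact_mod_cast Fintype.card_pos
    obtain ⟨g₁, hg₁⟩ := Filter.eventually_atTop.mp (hcut.eventually (gt_mem_nhds hb0))
    apply no_formula hq a b ε ha0 hb0 (by rw [hb]; linarith)
    refine ⟨fun α β => eulerA F α β * (zetaF F (1 + 2 * α) / zetaF F (1 + α + β)),
      fun α β => eulerA F (-α) β * (zetaF F (1 - 2 * α) / zetaF F (1 - α + β)),
      C * (Fintype.card F : ℝ) ^ (-(1 / 2) : ℝ), max g₀ g₁, ?_⟩
    intro g hg α β hα hβ hα' hβ'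
    have h1 := h g (le_trans (le_max_left _ _) hg) α β
      (by rw [hα, abs_neg, abs_of_pos ha0]; exact ha1)
      (by rw [hα]; exact (neg_neg_of_pos ha0).ne)
      (by rw [hβ]; exact (hg₁ g (le_trans (le_max_right _ _) hg)).le)
      (by rw [hβ]; exact hb0) (by rw [hβ]; exact hb1) hα' hβ'
    rw [mainTerms] at h1
    have h2 : C * (Fintype.card F : ℝ) ^ ((ε - 1) * g - 1 / 2) =
        C * (Fintype.card F : ℝ) ^ (-(1 / 2) : ℝ) * (Fintype.card F : ℝ) ^ ((ε - 1) * g) := by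
      rw [mul_assoc, ← Real.rpow_add hq0]
      congr 2
      ring
    rw [← h2]
    refine le_trans (le_of_eq ?_) h1
    congr 2
    ring

end Pool.Agent.Results.MP_dadd9c_nt.IntendedRange
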